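import Pool.Agent.H586.AF.C

/-!
# Project AF (helper586): gauge fixing (`S_GF`; by helper297)
-/

set_option autoImplicit false
set_option linter.unusedVariables false

open MeasureTheory Matrix Finset Filter Topology
open scoped Quaternion

namespace Pool.Agent.H297.AF

open Pool.Agent.H586.AF

noncomputable section

instance instPS : ProperSpace ℍ[ℝ] := FiniteDimensional.proper_real _

/-- A Haar probability measure is invariant under right multiplications. -/
theorem right_inv {H : Type} [Group H] [TopologicalSpace H] [IsTopologicalGroup H]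
    [CompactSpace H] [MeasurableSpace H] [BorelSpace H] (μ : Measure H)
    [IsProbabilityMeasure μ] [μ.IsHaarMeasure] : μ.IsMulRightInvariant := by
  refine ⟨fun g => ?_⟩
  have h1 : IsProbabilityMeasure (Measure.map (fun x => x * g) μ) :=
    Measure.isProbabilityMeasure_map (measurable_mul_const g).aemeasurable
  exact Measure.isHaarMeasure_eq_of_isProbabilityMeasure _ _

/-! ### Unit quaternions -/

theorem smul_self (a : SU) : star (a : ℍ[ℝ]) * a = 1 := by
  rw [Quaternion.star_mul_self, Quaternion.normSq_eq_norm_mul_self]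
  simp

theorem mul_star (a : SU) : (a : ℍ[ℝ]) * star (a : ℍ[ℝ]) = 1 := by
  rw [Quaternion.self_mul_star, Quaternion.normSq_eq_norm_mul_self]
  simp

theorem coe_inv (a : SU) : ((a⁻¹ : SU) : ℍ[ℝ]) = star (a : ℍ[ℝ]) := by
  rw [Metric.unitSphere.coe_inv]
  exact inv_eq_of_mul_eq_one_left (smul_self a)

theorem re_comm (a b : ℍ[ℝ]) : (a * b).re = (b * a).re := by
  rw [Quaternion.re_mul, Quaternion.re_mul]
  ring

theorem re_conj (p : SU) (X : ℍ[ℝ]) : (star (p : ℍ[ℝ]) * X * p).re = X.re := by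
  rw [re_comm, ← mul_assoc, mul_star, one_mul]

theorem pe_gauge (p1 p2 p3 p4 : SU) (a b c d : ℍ[ℝ]) :
    pe (star (p1 : ℍ[ℝ]) * a * p2) (star (p2 : ℍ[ℝ]) * b * p3) (star (p4 : ℍ[ℝ]) * c * p3)
      (star (p1 : ℍ[ℝ]) * d * p4) = pe a b c d := by
  unfold pe
  have h : star (p1 : ℍ[ℝ]) * a * p2 * (star (p2 : ℍ[ℝ]) * b * p3) *
      star (star (p4 : ℍ[ℝ]) * c * p3) * star (star (p1 : ℍ[ℝ]) * d * p4) =
      star (p1 : ℍ[ℝ]) * (a * b * star c * star d) * p1 := by
    simp only [star_mul, star_star]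
    have e2 := mul_star p2
    have e3 := mul_star p3
    have e4 := mul_star p4
    calc star (p1 : ℍ[ℝ]) * a * p2 * (star (p2 : ℍ[ℝ]) * b * p3) *
          (star (p3 : ℍ[ℝ]) * (star c * p4)) * (star (p4 : ℍ[ℝ]) * (star d * p1)) =
        star (p1 : ℍ[ℝ]) * a * (p2 * star (p2 : ℍ[ℝ])) * b * (p3 * star (p3 : ℍ[ℝ])) * star c *
          (p4 * star (p4 : ℍ[ℝ])) * star d * p1 := by
          simp only [mul_assoc]
      _ = _ := by
          rw [e2, e3, e4]
          simp only [mul_assoc, one_mul]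
  rw [h, re_conj]

theorem bg_norm (θ t : ℝ) : ‖bg θ t‖ = 1 := by
  have h : ‖bg θ t‖ * ‖bg θ t‖ = 1 := by
    rw [← Quaternion.normSq_eq_norm_mul_self, Quaternion.normSq_def']
    unfold bg
    simp
  nlinarith [norm_nonneg (bg θ t)]

/-- the background as an element of the group -/
def BG (θ t : ℝ) : SU := ⟨bg θ t, by rw [mem_sphere_zero_iff_norm]; exact bg_norm θ t⟩

theorem BG_coe (θ t : ℝ) : ((BG θ t : SU) : ℍ[ℝ]) = bg θ t := rfl

theorem bg_half (θ t : ℝ) : bg θ (t / 2) * bg θ (t / 2) = bg θ t := by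
  have h : θ * t / 2 = 2 * (θ * (t / 2) / 2) := by ring
  unfold bg
  rw [h, Real.cos_two_mul', Real.sin_two_mul]
  ext <;> simp <;> ring

/-! ### The gauge transformation -/

/-- the product of the vertical links below the height `h` -/
def PP (L : ℕ) (v : I0 L → SU) (x y z : ℕ) : ℕ → SU
  | 0 => 1
  | h + 1 => PP L v x y z h * ex4 L v 1 x y z h

theorem ex4_one {L : ℕ} {R : Type} (v : I0 L → R) (w : R) {x y z : ℕ} (h : ℕ)
    (hl : x = 0 ∨ L ≤ x ∨ y = 0 ∨ L ≤ y ∨ z = 0 ∨ L ≤ z) : ex4 L v w x y z h = w := by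
  unfold ex4
  rw [dif_neg]
  omega

theorem PP_one {L : ℕ} (v : I0 L → SU) {x y z : ℕ} (h : ℕ)
    (hl : x = 0 ∨ L ≤ x ∨ y = 0 ∨ L ≤ y ∨ z = 0 ∨ L ≤ z) : PP L v x y z h = 1 := by
  induction h with
  | zero => rfl
  | succ h ih =>
    show PP L v x y z h * ex4 L v 1 x y z h = 1
    rw [ih, ex4_one v 1 h hl, mul_one]

/-- left factors -/
def fa (L : ℕ) (θ : ℝ) (v : I0 L → SU) : IH L → SU
  | Sum.inl i => (PP L v i.1 (i.2.1 + 1) (i.2.2.1 + 1) (i.2.2.2 + 1))⁻¹
  | Sum.inr (Sum.inl i) => (PP L v (i.1 + 1) i.2.1 (i.2.2.1 + 1) (i.2.2.2 + 1))⁻¹ *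
      BG θ (((i.1 + 1 : ℕ) : ℝ) / 2)
  | Sum.inr (Sum.inr i) => (PP L v (i.1 + 1) (i.2.1 + 1) i.2.2.1 (i.2.2.2 + 1))⁻¹

/-- right factors -/
def fb (L : ℕ) (θ : ℝ) (v : I0 L → SU) : IH L → SU
  | Sum.inl i => PP L v (i.1 + 1) (i.2.1 + 1) (i.2.2.1 + 1) (i.2.2.2 + 1)
  | Sum.inr (Sum.inl i) => BG θ (((i.1 + 1 : ℕ) : ℝ) / 2) *
      PP L v (i.1 + 1) (i.2.1 + 1) (i.2.2.1 + 1) (i.2.2.2 + 1)
  | Sum.inr (Sum.inr i) => PP L v (i.1 + 1) (i.2.1 + 1) (i.2.2.1 + 1) (i.2.2.2 + 1)

/-- the substitution -/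
def Ph (L : ℕ) (θ : ℝ) (v : I0 L → SU) (σ : IH L → SU) : IH L → SU :=
  fun l => fa L θ v l * σ l * fb L θ v l

theorem rel1 {L : ℕ} (θ : ℝ) (v : I0 L → SU) (σ : IH L → SU) (x y z h : ℕ) (hh : h ≤ L) :
    ex1 L (fun i => (Ph L θ v σ (Sum.inl i) : ℍ[ℝ])) 1 x y z h =
      star (PP L v x y z h : ℍ[ℝ]) * ex1 L (fun i => (σ (Sum.inl i) : ℍ[ℝ])) 1 x y z h *
        (PP L v (x + 1) y z h : ℍ[ℝ]) := by
  unfold ex1
  by_cases c : (x < L ∧ y - 1 < L - 1 ∧ z - 1 < L - 1 ∧ h - 1 < L) ∧ 1 ≤ y ∧ 1 ≤ z ∧ 1 ≤ h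
  · rw [dif_pos c, dif_pos c]
    obtain ⟨_, h1, h2, h3⟩ := c
    simp only [Ph, fa, fb, Metric.unitSphere.coe_mul, coe_inv, Nat.sub_add_cancel h1,
      Nat.sub_add_cancel h2, Nat.sub_add_cancel h3]
  · rw [dif_neg c, dif_neg c]
    rcases Nat.eq_zero_or_pos h with rfl | h0
    · show (1 : ℍ[ℝ]) = star ((1 : SU) : ℍ[ℝ]) * 1 * ((1 : SU) : ℍ[ℝ])
      rw [Metric.unitSphere.coe_one]
      simp
    · rw [PP_one v h (by omega), PP_one v h (by omega), Metric.unitSphere.coe_one]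
      simp

theorem rel2 {L : ℕ} (θ : ℝ) (v : I0 L → SU) (σ : IH L → SU) (x y z h : ℕ) (hh : h ≤ L) :
    ex2 L (fun i => (Ph L θ v σ (Sum.inr (Sum.inl i)) : ℍ[ℝ])) (bg θ x) x y z h =
      star (PP L v x y z h : ℍ[ℝ]) * (bg θ (x / 2) *
        ex2 L (fun i => (σ (Sum.inr (Sum.inl i)) : ℍ[ℝ])) 1 x y z h * bg θ (x / 2)) *
        (PP L v x (y + 1) z h : ℍ[ℝ]) := by
  unfold ex2
  by_cases c : (x - 1 < L - 1 ∧ y < L ∧ z - 1 < L - 1 ∧ h - 1 < L) ∧ 1 ≤ x ∧ 1 ≤ z ∧ 1 ≤ h
  · rw [dif_pos c, dif_pos c]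
    obtain ⟨_, h1, h2, h3⟩ := c
    simp only [Ph, fa, fb, Metric.unitSphere.coe_mul, coe_inv, BG_coe, Nat.sub_add_cancel h1,
      Nat.sub_add_cancel h2, Nat.sub_add_cancel h3, mul_assoc]
  · rw [dif_neg c, dif_neg c, mul_one, bg_half]
    rcases Nat.eq_zero_or_pos h with rfl | h0
    · show bg θ x = star ((1 : SU) : ℍ[ℝ]) * bg θ x * ((1 : SU) : ℍ[ℝ])
      rw [Metric.unitSphere.coe_one]
      simp
    · rw [PP_one v h (by omega), PP_one v h (by omega), Metric.unitSphere.coe_one]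
      simp

theorem rel3 {L : ℕ} (θ : ℝ) (v : I0 L → SU) (σ : IH L → SU) (x y z h : ℕ) (hh : h ≤ L) :
    ex3 L (fun i => (Ph L θ v σ (Sum.inr (Sum.inr i)) : ℍ[ℝ])) 1 x y z h =
      star (PP L v x y z h : ℍ[ℝ]) * ex3 L (fun i => (σ (Sum.inr (Sum.inr i)) : ℍ[ℝ])) 1 x y z h *
        (PP L v x y (z + 1) h : ℍ[ℝ]) := by
  unfold ex3
  by_cases c : (x - 1 < L - 1 ∧ y - 1 < L - 1 ∧ z < L ∧ h - 1 < L) ∧ 1 ≤ x ∧ 1 ≤ y ∧ 1 ≤ h
  · rw [dif_pos c, dif_pos c]
    obtain ⟨_, h1, h2, h3⟩ := c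
    simp only [Ph, fa, fb, Metric.unitSphere.coe_mul, coe_inv, Nat.sub_add_cancel h1,
      Nat.sub_add_cancel h2, Nat.sub_add_cancel h3]
  · rw [dif_neg c, dif_neg c]
    rcases Nat.eq_zero_or_pos h with rfl | h0
    · show (1 : ℍ[ℝ]) = star ((1 : SU) : ℍ[ℝ]) * 1 * ((1 : SU) : ℍ[ℝ])
      rw [Metric.unitSphere.coe_one]
      simp
    · rw [PP_one v h (by omega), PP_one v h (by omega), Metric.unitSphere.coe_one]
      simp

theorem rel4 {L : ℕ} (v : I0 L → SU) (x y z h : ℕ) :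
    ex4 L (fun i => (v i : ℍ[ℝ])) 1 x y z h =
      star (PP L v x y z h : ℍ[ℝ]) * 1 * (PP L v x y z (h + 1) : ℍ[ℝ]) := by
  have e1 : ex4 L (fun i => (v i : ℍ[ℝ])) 1 x y z h = ((ex4 L v 1 x y z h : SU) : ℍ[ℝ]) := by
    unfold ex4
    split_ifs
    · rfl
    · rw [Metric.unitSphere.coe_one]
  have e2 : (PP L v x y z (h + 1) : ℍ[ℝ]) = (PP L v x y z h : ℍ[ℝ]) *
      ((ex4 L v 1 x y z h : SU) : ℍ[ℝ]) := Metric.unitSphere.coe_mul _ _
  rw [e1, e2, mul_one, ← mul_assoc, smul_self, one_mul]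

/-- gauge invariance of the Wilson action -/
theorem wil_gauge (L : ℕ) (U1 U2 U3 U4 W1 W2 W3 W4 : ℕ → ℕ → ℕ → ℕ → ℍ[ℝ])
    (p : ℕ → ℕ → ℕ → ℕ → SU)
    (h1 : ∀ x y z h, h ≤ L → U1 x y z h =
      star (p x y z h : ℍ[ℝ]) * W1 x y z h * (p (x + 1) y z h : ℍ[ℝ]))
    (h2 : ∀ x y z h, h ≤ L → U2 x y z h =
      star (p x y z h : ℍ[ℝ]) * W2 x y z h * (p x (y + 1) z h : ℍ[ℝ]))
    (h3 : ∀ x y z h, h ≤ L → U3 x y z h =
      star (p x y z h : ℍ[ℝ]) * W3 x y z h * (p x y (z + 1) h : ℍ[ℝ]))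
    (h4 : ∀ x y z h, U4 x y z h =
      star (p x y z h : ℍ[ℝ]) * W4 x y z h * (p x y z (h + 1) : ℍ[ℝ])) :
    wil L U1 U2 U3 U4 = wil L W1 W2 W3 W4 := by
  unfold wil
  congr 1
  · congr 1
    · congr 1
      · congr 1
        · congr 1
          · unfold s12
            refine sum_congr rfl fun x _ => sum_congr rfl fun y _ => sum_congr rfl fun z _ =>
              sum_congr rfl fun h hh => ?_
            have hL : h ≤ L := (mem_Icc.1 hh).2
            beta_reduce
            rw [h1 x y z h hL, h2 (x + 1) y z h hL, h1 x (y + 1) z h hL, h2 x y z h hL, pe_gauge]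
          · unfold s13
            refine sum_congr rfl fun x _ => sum_congr rfl fun y _ => sum_congr rfl fun z _ =>
              sum_congr rfl fun h hh => ?_
            have hL : h ≤ L := (mem_Icc.1 hh).2
            beta_reduce
            rw [h1 x y z h hL, h3 (x + 1) y z h hL, h1 x y (z + 1) h hL, h3 x y z h hL, pe_gauge]
        · unfold s23
          refine sum_congr rfl fun x _ => sum_congr rfl fun y _ => sum_congr rfl fun z _ =>
            sum_congr rfl fun h hh => ?_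
          have hL : h ≤ L := (mem_Icc.1 hh).2
          beta_reduce
          rw [h2 x y z h hL, h3 x (y + 1) z h hL, h2 x y (z + 1) h hL, h3 x y z h hL, pe_gauge]
      · unfold s14
        refine sum_congr rfl fun x _ => sum_congr rfl fun y _ => sum_congr rfl fun z _ =>
          sum_congr rfl fun h hh => ?_
        have hL : h + 1 ≤ L := mem_range.1 hh
        beta_reduce
        rw [h1 x y z h (by omega), h4 (x + 1) y z h, h1 x y z (h + 1) hL, h4 x y z h, pe_gauge]
    · unfold s24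
      refine sum_congr rfl fun x _ => sum_congr rfl fun y _ => sum_congr rfl fun z _ =>
        sum_congr rfl fun h hh => ?_
      have hL : h + 1 ≤ L := mem_range.1 hh
      beta_reduce
      rw [h2 x y z h (by omega), h4 x (y + 1) z h, h2 x y z (h + 1) hL, h4 x y z h, pe_gauge]
  · unfold s34
    refine sum_congr rfl fun x _ => sum_congr rfl fun y _ => sum_congr rfl fun z _ =>
      sum_congr rfl fun h hh => ?_
    have hL : h + 1 ≤ L := mem_range.1 hh
    beta_reduce
    rw [h3 x y z h (by omega), h4 x y (z + 1) h, h3 x y z (h + 1) hL, h4 x y z h, pe_gauge]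

theorem act_Ph {L : ℕ} (θ : ℝ) (v : I0 L → SU) (σ : IH L → SU) :
    act L θ (Ph L θ v σ) v = en L θ σ := by
  unfold act en
  exact wil_gauge L _ _ _ _ _ _ _ _ (fun x y z h => PP L v x y z h)
    (fun x y z h hh => rel1 θ v σ x y z h hh) (fun x y z h hh => rel2 θ v σ x y z h hh)
    (fun x y z h hh => rel3 θ v σ x y z h hh) (fun x y z h => rel4 v x y z h)

/-! ### Continuity -/

theorem pe_cont {X : Type} [TopologicalSpace X] {a b c d : X → ℍ[ℝ]} (ha : Continuous a)
    (hb : Continuous b) (hc : Continuous c) (hd : Continuous d) :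
    Continuous fun p => pe (a p) (b p) (c p) (d p) := by
  unfold pe
  exact continuous_const.sub (continuous_const.mul (Quaternion.continuous_re.comp
    (((ha.mul hb).mul hc.star).mul hd.star)))

theorem wil_cont {X : Type} [TopologicalSpace X] (L : ℕ)
    {U1 U2 U3 U4 : X → ℕ → ℕ → ℕ → ℕ → ℍ[ℝ]}
    (h1 : ∀ x y z h, Continuous fun p => U1 p x y z h)
    (h2 : ∀ x y z h, Continuous fun p => U2 p x y z h)
    (h3 : ∀ x y z h, Continuous fun p => U3 p x y z h)
    (h4 : ∀ x y z h, Continuous fun p => U4 p x y z h) :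
    Continuous fun p => wil L (U1 p) (U2 p) (U3 p) (U4 p) := by
  unfold wil s12 s13 s23 s14 s24 s34
  refine Continuous.add (Continuous.add (Continuous.add (Continuous.add (Continuous.add ?_ ?_)
    ?_) ?_) ?_) ?_ <;>
  · refine continuous_finsetSum _ fun x _ => continuous_finsetSum _ fun y _ =>
      continuous_finsetSum _ fun z _ => continuous_finsetSum _ fun h _ => ?_
    apply pe_cont <;> solve_by_elim

theorem act_cont (L : ℕ) (θ : ℝ) :
    Continuous fun p : (IH L → SU) × (I0 L → SU) => act L θ p.1 p.2 := by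
  unfold act
  refine wil_cont L (fun x y z h => ?_) (fun x y z h => ?_) (fun x y z h => ?_)
    (fun x y z h => ?_)
  · unfold ex1
    split_ifs
    · exact continuous_subtype_val.comp ((continuous_apply _).comp continuous_fst)
    · exact continuous_const
  · unfold ex2
    split_ifs
    · exact continuous_subtype_val.comp ((continuous_apply _).comp continuous_fst)
    · exact continuous_const
  · unfold ex3
    split_ifs
    · exact continuous_subtype_val.comp ((continuous_apply _).comp continuous_fst)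
    · exact continuous_const
  · unfold ex4
    split_ifs
    · exact continuous_subtype_val.comp ((continuous_apply _).comp continuous_snd)
    · exact continuous_const

/-! ### The change of variables -/

theorem Ph_mp (μ : Measure SU) [IsProbabilityMeasure μ] [μ.IsHaarMeasure] (L : ℕ) (θ : ℝ)
    (v : I0 L → SU) :
    MeasurePreserving (Ph L θ v) (Measure.pi fun _ : IH L => μ) (Measure.pi fun _ => μ) := by
  have hr := right_inv μ
  refine measurePreserving_pi (fun _ : IH L => μ) (fun _ => μ)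
    (f := fun l s => fa L θ v l * s * fb L θ v l) fun l => ?_
  exact (measurePreserving_mul_right μ (fb L θ v l)).comp
    (measurePreserving_mul_left μ (fa L θ v l))

theorem inner (μ : Measure SU) [IsProbabilityMeasure μ] [μ.IsHaarMeasure] (L : ℕ) (β θ : ℝ)
    (v : I0 L → SU) :
    ∫ u : IH L → SU, Real.exp (-(β * act L θ u v)) ∂(Measure.pi fun _ => μ) =
      ∫ σ : IH L → SU, Real.exp (-(β * en L θ σ)) ∂(Measure.pi fun _ => μ) := by
  have hmp := Ph_mp μ L θ v
  have hc : Continuous fun u : IH L → SU => Real.exp (-(β * act L θ u v)) :=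
    Real.continuous_exp.comp (continuous_const.mul
      ((act_cont L θ).comp (continuous_id.prodMk continuous_const))).neg
  have h1 : ∫ u, Real.exp (-(β * act L θ u v)) ∂(Measure.pi fun _ : IH L => μ) =
      ∫ u, Real.exp (-(β * act L θ u v))
        ∂(Measure.map (Ph L θ v) (Measure.pi fun _ : IH L => μ)) := by
    rw [hmp.map_eq]
  rw [h1, integral_map hmp.measurable.aemeasurable hc.aestronglyMeasurable]
  exact integral_congr_ae (Eventually.of_forall fun σ => by
    show Real.exp (-(β * act L θ (Ph L θ v σ) v)) = _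
    rw [act_Ph])

/-- **Task AF-GF.** -/
theorem tgf : S_GF := by
  intro μ _ _ L hL β θ
  unfold ZZ
  have hc : Continuous (Function.uncurry fun (u : IH L → SU) (v : I0 L → SU) =>
      Real.exp (-(β * act L θ u v))) :=
    Real.continuous_exp.comp (continuous_const.mul (act_cont L θ)).neg
  rw [integral_integral_swap (hc.integrable_of_hasCompactSupport
    (HasCompactSupport.of_compactSpace _))]
  have h1 : ∀ v : I0 L → SU,
      ∫ u : IH L → SU, Real.exp (-(β * act L θ u v)) ∂(Measure.pi fun _ => μ) =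
      ∫ σ : IH L → SU, Real.exp (-(β * en L θ σ)) ∂(Measure.pi fun _ => μ) :=
    fun v => inner μ L β θ v
  simp only [h1]
  rw [integral_const, probReal_univ, one_smul]

end

end Pool.Agent.H297.AF
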